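import Pool.Agent.H36.RP.Targets

/-!
# [MP] Shift invariance and the values of the coordinates
-/

set_option autoImplicit false

open MeasureTheory ProbabilityTheory Filter Topology Finset

namespace Pool.Agent.H2.RP

open Pool.Agent.H89.MT (I1 X pt z1)
open Pool.Agent.H36.RP

theorem S_cont : Continuous S := continuous_pi fun t => continuous_apply (t + 1)

theorem pt_S (u : ℕ → I1) (n : ℕ) : S (pt u n) = pt u (n + 1) := by
  funext t
  have h : (n : ℤ) + (t + 1) = ((n + 1 : ℕ) : ℤ) + t := by push_cast; ring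
  show pt u n (t + 1) = pt u (n + 1) t
  unfold pt
  rw [h]

/-- summation by parts on a window -/
theorem sum_diff (a : ℕ → ℝ) (B : ℝ) (ha : ∀ n, |a n| ≤ B) (Y Z : ℕ) (hY : 1 ≤ Y) (hYZ : Y ≤ Z) :
    |∑ n ∈ Icc Y Z, (a (n + 1) - a n) / n| ≤ 2 * B := by
  have hB : 0 ≤ B := (abs_nonneg _).trans (ha 0)
  have hY0 : (1 : ℝ) ≤ Y := by exact_mod_cast hY
  have key : |∑ n ∈ Icc Y Z, (a (n + 1) - a n) / n - a (Z + 1) / Z| ≤ B * (2 / Y - 1 / Z) := by
    induction Z, hYZ using Nat.le_induction with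
    | base =>
      rw [Icc_self, sum_singleton]
      have h1 : (a (Y + 1) - a Y) / (Y : ℝ) - a (Y + 1) / Y = -(a Y) / Y := by ring
      rw [h1, abs_div, abs_neg, abs_of_nonneg (by linarith : (0 : ℝ) ≤ Y)]
      have h2 : B * (2 / (Y : ℝ) - 1 / Y) = B / Y := by ring
      rw [h2]
      exact div_le_div_of_nonneg_right (ha Y) (by linarith)
    | succ Z hZ ih =>
      rw [← Finset.insert_Icc_right_eq_Icc_add_one (by omega : Y ≤ Z + 1),
        sum_insert (by simp)]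
      have hZ0 : (1 : ℝ) ≤ Z := hY0.trans (by exact_mod_cast hZ)
      have hZ1 : (0 : ℝ) < Z := by linarith
      push_cast
      have h1 : (a (Z + 1 + 1) - a (Z + 1)) / ((Z : ℝ) + 1) +
          ∑ n ∈ Icc Y Z, (a (n + 1) - a n) / (n : ℝ) - a (Z + 1 + 1) / ((Z : ℝ) + 1) =
          (∑ n ∈ Icc Y Z, (a (n + 1) - a n) / (n : ℝ) - a (Z + 1) / Z) +
            a (Z + 1) * (1 / (Z : ℝ) - 1 / (Z + 1)) := by ring
      rw [h1]
      have h2 : (0 : ℝ) ≤ 1 / (Z : ℝ) - 1 / (Z + 1) := by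
        rw [sub_nonneg]
        exact one_div_le_one_div_of_le hZ1 (by linarith)
      refine (abs_add_le _ _).trans ?_
      rw [abs_mul, abs_of_nonneg h2]
      have h3 := mul_le_mul_of_nonneg_right (ha (Z + 1)) h2
      have h4 : B * (2 / (Y : ℝ) - 1 / ((Z : ℝ) + 1)) = B * (2 / Y - 1 / Z) +
        B * (1 / (Z : ℝ) - 1 / (Z + 1)) := by ring
      rw [h4]
      exact add_le_add ih h3
  have hZ0 : (1 : ℝ) ≤ Z := hY0.trans (by exact_mod_cast hYZ)
  have h5 : |a (Z + 1) / (Z : ℝ)| ≤ B / Z := by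
    rw [abs_div, abs_of_nonneg (by linarith : (0 : ℝ) ≤ Z)]
    exact div_le_div_of_nonneg_right (ha _) (by linarith)
  have h6 : |∑ n ∈ Icc Y Z, (a (n + 1) - a n) / (n : ℝ)| ≤
      |∑ n ∈ Icc Y Z, (a (n + 1) - a n) / n - a (Z + 1) / Z| + |a (Z + 1) / (Z : ℝ)| := by
    have := abs_add_le (∑ n ∈ Icc Y Z, (a (n + 1) - a n) / (n : ℝ) - a (Z + 1) / Z)
      (a (Z + 1) / (Z : ℝ))
    rwa [sub_add_cancel] at this
  have h7 : B * (2 / (Y : ℝ) - 1 / Z) + B / Z = B * (2 / Y) := by ring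
  have h8 : (2 : ℝ) / Y ≤ 2 := by
    rw [div_le_iff₀ (by linarith)]
    linarith
  have h9 : B * (2 / (Y : ℝ)) ≤ B * 2 := mul_le_mul_of_nonneg_left h8 hB
  linarith

theorem shift_inv (u : ℕ → I1) (κ : Measure X) [IsProbabilityMeasure κ]
    (h : QuasiGeneric u κ) : MeasurePreserving S κ κ := by
  obtain ⟨Y, Z, hYZ, hL, hF⟩ := h
  have hS : Measurable S := S_cont.measurable
  refine ⟨hS, ?_⟩
  have : IsProbabilityMeasure (κ.map S) := Measure.isProbabilityMeasure_map hS.aemeasurable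
  apply ext_of_forall_integral_eq_of_IsFiniteMeasure
  intro F
  rw [integral_map hS.aemeasurable F.continuous.aestronglyMeasurable]
  have h1 := hF ⟨fun x => F (S x), F.continuous.comp S_cont⟩
  have h2 := hF ⟨fun x => F x, F.continuous⟩
  have h3 : Tendsto (fun k => (∑ n ∈ Icc (Y k) (Z k), F (pt u (n + 1)) / n) /
      Real.log ((Z k : ℝ) / Y k) - (∑ n ∈ Icc (Y k) (Z k), F (pt u n) / n) /
      Real.log ((Z k : ℝ) / Y k)) atTop (𝓝 0) := by
    have hb : ∀ n, |F (pt u n)| ≤ ‖F‖ := fun n => by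
      have := F.norm_coe_le_norm (pt u n)
      rwa [Real.norm_eq_abs] at this
    have hlim : Tendsto (fun k => 2 * ‖F‖ / Real.log ((Z k : ℝ) / Y k)) atTop (𝓝 0) :=
      hL.const_div_atTop _
    refine squeeze_zero_norm' ?_ hlim
    filter_upwards [hL.eventually_gt_atTop 0] with k hk
    obtain ⟨hY, hYX⟩ := hYZ k
    have h4 := sum_diff (fun n => F (pt u n)) ‖F‖ hb (Y k) (Z k) hY hYX
    rw [← sub_div, ← sum_sub_distrib, Real.norm_eq_abs, abs_div, abs_of_pos hk]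
    refine div_le_div_of_nonneg_right ?_ hk.le
    simpa only [sub_div] using h4
  have h4 := h3.add h2
  simp only [ContinuousMap.coe_mk, sub_add_cancel, zero_add, pt_S] at h4 h1
  exact tendsto_nhds_unique h1 h4

theorem pf_MP : T_MP := by
  intro u hu κ _ h
  refine ⟨shift_inv u κ h, ?_⟩
  obtain ⟨Y, Z, hYZ, hL, hF⟩ := h
  unfold Trit
  rw [ae_all_iff]
  intro k
  have hG : Continuous fun x : X => ((x k : ℝ) - (x k : ℝ) ^ 3) ^ 2 := by
    have h1 : Continuous fun x : X => (x k : ℝ) := continuous_subtype_val.comp (continuous_apply k)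
    exact (h1.sub (h1.pow 3)).pow 2
  have h1 := hF ⟨_, hG⟩
  have hz : ∀ n, ((pt u n k : ℝ) - (pt u n k : ℝ) ^ 3) ^ 2 = 0 := by
    intro n
    have h2 : (pt u n k : ℝ) = -1 ∨ (pt u n k : ℝ) = 0 ∨ (pt u n k : ℝ) = 1 := by
      unfold pt
      split_ifs
      · exact hu _
      · exact Or.inr (Or.inl rfl)
    rcases h2 with h2 | h2 | h2 <;> rw [h2] <;> norm_num
  simp only [ContinuousMap.coe_mk, hz, zero_div, sum_const_zero] at h1
  have h2 : ∫ x, ((x k : ℝ) - (x k : ℝ) ^ 3) ^ 2 ∂κ = 0 :=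
    (tendsto_nhds_unique h1 tendsto_const_nhds)
  have hint : Integrable (fun x : X => ((x k : ℝ) - (x k : ℝ) ^ 3) ^ 2) κ := by
    refine Integrable.of_bound hG.aestronglyMeasurable 4 (Eventually.of_forall fun x => ?_)
    have h3 := (x k).2
    have h4 : |(x k : ℝ)| ≤ 1 := abs_le.2 h3
    have h5 : |(x k : ℝ) - (x k : ℝ) ^ 3| ≤ 2 := by
      refine (abs_sub _ _).trans ?_
      rw [abs_pow]
      have h6 : |(x k : ℝ)| ^ 3 ≤ 1 := pow_le_one₀ (abs_nonneg _) h4
      linarith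
    rw [Real.norm_eq_abs, abs_pow]
    have h7 := pow_le_pow_left₀ (abs_nonneg _) h5 2
    linarith
  have h3 := (integral_eq_zero_iff_of_nonneg (fun x => sq_nonneg _) hint).1 h2
  filter_upwards [h3] with x hx
  have h4 : ((x k : ℝ) - (x k : ℝ) ^ 3) ^ 2 = 0 := hx
  have h5 : (x k : ℝ) * ((1 - (x k : ℝ)) * (1 + (x k : ℝ))) = 0 := by
    have := pow_eq_zero_iff (two_ne_zero) |>.1 h4
    linear_combination this
  rcases mul_eq_zero.1 h5 with h6 | h6
  · exact Or.inr (Or.inl h6)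
  · rcases mul_eq_zero.1 h6 with h7 | h7
    · exact Or.inr (Or.inr (by linarith))
    · exact Or.inl (by linarith)

end Pool.Agent.H2.RP
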